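import Pool.Agent.H96.HK.Basic

open MeasureTheory Set Filter Topology
open Pool.Agent.H96.HK

namespace Pool.Agent.H81.HK

theorem u1 (h1 : T_MIN) (h2 : T_WS1) (h3 : T_WS2) (h4 : T_WS3) : T_U1 := by
  intro F H hF hH t ht p q
  exact h1 F H hF hH q (WS F q) (h2 F hF q).2.1
    (fun t ht p => tsum_nonneg fun k => (E2_pos' ht _).le) (h2 F hF q).2.2.1
    (fun t ht p => ⟨0, by simpa using h3 F hF q t p ht⟩)
    (fun ψ a b c => h4 F hF q ψ a b c) t ht p

theorem dec (h1 : T_U1) (h2 : T_WS1) : T_DEC := by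
  intro F H hF hH q T hT ε hε
  obtain ⟨R, hR⟩ := (h2 F hF q).2.2.2 T hT ε hε
  exact ⟨R, fun t ht p hp => (h1 F H hF hH t ht.1 p q).trans (hR t ht p hp)⟩

theorem summable_exp_abs {c : ℝ} (hc : 0 < c) :
    Summable (fun k : ℤ => Real.exp (-(c * |(k : ℝ)|))) := by
  have hr : Real.exp (-c) < 1 := by
    rw [Real.exp_lt_one_iff]; linarith
  have hg := summable_geometric_of_lt_one (Real.exp_pos (-c)).le hr
  have e : ∀ n : ℕ, Real.exp (-(c * (n : ℝ))) = Real.exp (-c) ^ n := fun n => by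
    rw [← Real.exp_nat_mul]; congr 1; ring
  refine Summable.of_nat_of_neg ?_ ?_
  · refine hg.congr fun n => ?_
    rw [← e]; simp
  · refine hg.congr fun n => ?_
    rw [← e]; simp

theorem u2 (h1 : T_DD) (h2 : T_LOW) (h3 : T_DQ) : T_U2 := by
  intro F hF A hA
  have hD := h1 F hF
  have hQ := h3 F hF
  have hF0 : 0 < F 0 := hF.pos 0
  have hpi := Real.pi_pos
  set κ : ℝ := F 0 / (4 * A) with hκ
  have hκ0 : 0 < κ := by positivity
  set Om : ℝ := max (5 * Real.pi / 4) (Real.pi + 1 / F 0) with hOm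
  have hOm0 : 0 < Om := lt_of_lt_of_le (by positivity) (le_max_left _ _)
  set S : ℝ := ∑' k : ℤ, Real.exp (-(κ * (Real.pi / 2) * |(k : ℝ)|)) with hS
  have hSs : Summable (fun k : ℤ => Real.exp (-(κ * (Real.pi / 2) * |(k : ℝ)|))) :=
    summable_exp_abs (by positivity)
  have hS0 : 0 < S := hSs.tsum_pos (fun _ => (Real.exp_pos _).le) 0 (Real.exp_pos _)
  refine ⟨Real.exp (κ * (Om + 5 * Real.pi / 4)) * Real.exp (κ * (Real.pi / 2)) * S,
    by positivity, fun p q t ht htA => ?_⟩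
  set R : ℝ := |p.1| + |q.1| with hR
  have hR0 : 0 ≤ R := by positivity
  set d := dq F p q with hd
  have hd0 : 0 ≤ d := hQ.nn p q
  -- upper bound for `d`
  have hdle : d ≤ R + F 0 * (Real.pi / 4) := by
    set k0 := round ((p.2 - q.2) / (Real.pi / 2)) with hk0
    have h5 := abs_sub_round ((p.2 - q.2) / (Real.pi / 2))
    rw [← hk0] at h5
    have h6 : |p.2 - (gk k0 q).2| ≤ Real.pi / 4 := by
      have : p.2 - (gk k0 q).2 = ((p.2 - q.2) / (Real.pi / 2) - k0) * (Real.pi / 2) := by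
        rw [gk_snd]; field_simp; ring
      rw [this, abs_mul, abs_of_pos (show 0 < Real.pi / 2 by positivity)]
      nlinarith
    have h7 := hD.le2 p (gk k0 q)
    rw [abs_gk_fst] at h7
    have h8 := hQ.le p q k0
    have h9 : F 0 * |p.2 - (gk k0 q).2| ≤ F 0 * (Real.pi / 4) :=
      mul_le_mul_of_nonneg_left h6 hF0.le
    linarith
  -- each term
  have hterm : ∀ k : ℤ, E2 t (dd F p (gk k q) ^ 2) ≤
      Real.exp (κ * (Om + 5 * Real.pi / 4)) *
        Real.exp (-(κ * |p.2 - q.2 - k * (Real.pi / 2)|)) * E2 t (d ^ 2) := by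
    intro k
    have hdk : d ≤ dd F p (gk k q) := hQ.le p q k
    have hom : |p.2 - (gk k q).2| = |p.2 - q.2 - k * (Real.pi / 2)| := by
      rw [gk_snd]; congr 1; ring
    set om := |p.2 - q.2 - k * (Real.pi / 2)| with hom'
    have hom0 : 0 ≤ om := abs_nonneg _
    have hE0 := E2_pos' ht (d ^ 2)
    rcases le_or_gt Om om with hc | hc
    · have c1 : 5 * Real.pi / 4 ≤ om := (le_max_left _ _).trans hc
      have c2 : Real.pi + 1 / F 0 ≤ om := (le_max_right _ _).trans hc
      have c3 : 0 < 1 / F 0 := by positivity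
      have hlow := h2 F hF p (gk k q) (by rw [hom]; linarith)
      rw [hom, abs_gk_fst] at hlow
      have g1 : F 0 * (om - 5 * Real.pi / 4) ≤ dd F p (gk k q) - d := by nlinarith
      have g2 : R + 1 ≤ dd F p (gk k q) + d := by
        have : 1 ≤ F 0 * (om - Real.pi) := by
          calc (1 : ℝ) = F 0 * (1 / F 0) := by field_simp
            _ ≤ F 0 * (om - Real.pi) := mul_le_mul_of_nonneg_left (by linarith) hF0.le
        linarith
      have g3 : F 0 * (om - 5 * Real.pi / 4) * (R + 1) ≤ dd F p (gk k q) ^ 2 - d ^ 2 := by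
        calc F 0 * (om - 5 * Real.pi / 4) * (R + 1)
            ≤ (dd F p (gk k q) - d) * (dd F p (gk k q) + d) :=
              mul_le_mul g1 g2 (by linarith) (by linarith)
          _ = _ := by ring
      have g4 : κ * (om - 5 * Real.pi / 4) ≤ (dd F p (gk k q) ^ 2 - d ^ 2) / (4 * t) := by
        rw [le_div_iff₀ (by positivity)]
        refine le_trans ?_ g3
        have e1 : κ * (om - 5 * Real.pi / 4) * (4 * t) =
            F 0 * (om - 5 * Real.pi / 4) * (t / A) := by
          rw [hκ]; field_simp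
        rw [e1]
        have e2 : t / A ≤ R + 1 := by
          rw [div_le_iff₀ hA]; rw [hR]; linarith
        exact mul_le_mul_of_nonneg_left e2 (mul_nonneg hF0.le (by linarith))
      have e3 : E2 t (dd F p (gk k q) ^ 2) =
          Real.exp (-((dd F p (gk k q) ^ 2 - d ^ 2) / (4 * t))) * E2 t (d ^ 2) := by
        unfold E2
        rw [mul_left_comm, ← Real.exp_add]
        congr 2
        ring
      rw [e3]
      refine mul_le_mul_of_nonneg_right ?_ hE0.le
      rw [← Real.exp_add]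
      refine Real.exp_le_exp.2 ?_
      have : 0 ≤ κ * Om := by positivity
      nlinarith
    · refine (E2_anti ht (pow_le_pow_left₀ hd0 hdk 2)).trans ?_
      refine le_mul_of_one_le_left hE0.le ?_
      rw [← Real.exp_add]
      refine Real.one_le_exp ?_
      have g1 : κ * om ≤ κ * Om := mul_le_mul_of_nonneg_left hc.le hκ0.le
      have g2 : 0 ≤ κ * (5 * Real.pi / 4) := by positivity
      nlinarith
  -- the sum of the exponentials
  set x := p.2 - q.2 with hx
  set j := ⌊x / (Real.pi / 2)⌋ with hj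
  have hj1 : (j : ℝ) * (Real.pi / 2) ≤ x := by
    have := Int.floor_le (x / (Real.pi / 2))
    rwa [le_div_iff₀ (by positivity)] at this
  have hj2 : x < ((j : ℝ) + 1) * (Real.pi / 2) := by
    have := Int.lt_floor_add_one (x / (Real.pi / 2))
    rwa [div_lt_iff₀ (by positivity)] at this
  have hexp : ∀ k : ℤ, Real.exp (-(κ * |x - k * (Real.pi / 2)|)) ≤
      Real.exp (κ * (Real.pi / 2)) * Real.exp (-(κ * (Real.pi / 2) * |((k - j : ℤ) : ℝ)|)) := by
    intro k
    rw [← Real.exp_add]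
    refine Real.exp_le_exp.2 ?_
    have g1 : |((k - j : ℤ) : ℝ)| * (Real.pi / 2) ≤ |x - k * (Real.pi / 2)| + Real.pi / 2 := by
      have e1 : |((k - j : ℤ) : ℝ)| * (Real.pi / 2) = |((k : ℝ) - j) * (Real.pi / 2)| := by
        rw [abs_mul, abs_of_pos (show 0 < Real.pi / 2 by positivity)]; push_cast; rfl
      rw [e1]
      have e2 : ((k : ℝ) - j) * (Real.pi / 2) =
          -(x - k * (Real.pi / 2)) + (x - j * (Real.pi / 2)) := by ring
      rw [e2]
      refine (abs_add_le _ _).trans ?_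
      rw [abs_neg]
      have : |x - j * (Real.pi / 2)| ≤ Real.pi / 2 := by
        rw [abs_le]; constructor <;> nlinarith
      linarith
    nlinarith
  have hsum2 : Summable (fun k : ℤ => Real.exp (-(κ * (Real.pi / 2) * |((k - j : ℤ) : ℝ)|))) :=
    (Equiv.subRight j).summable_iff.2 hSs
  have htsum2 : ∑' k : ℤ, Real.exp (-(κ * (Real.pi / 2) * |((k - j : ℤ) : ℝ)|)) = S :=
    (Equiv.subRight j).tsum_eq (fun k : ℤ => Real.exp (-(κ * (Real.pi / 2) * |(k : ℝ)|)))
  have hdom : ∀ k : ℤ, E2 t (dd F p (gk k q) ^ 2) ≤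
      (Real.exp (κ * (Om + 5 * Real.pi / 4)) * Real.exp (κ * (Real.pi / 2)) * E2 t (d ^ 2)) *
        Real.exp (-(κ * (Real.pi / 2) * |((k - j : ℤ) : ℝ)|)) := by
    intro k
    have g1 := hterm k
    have g2 := hexp k
    have g3 : 0 ≤ E2 t (d ^ 2) := (E2_pos' ht _).le
    calc E2 t (dd F p (gk k q) ^ 2) ≤ _ := g1
      _ ≤ Real.exp (κ * (Om + 5 * Real.pi / 4)) * (Real.exp (κ * (Real.pi / 2)) *
          Real.exp (-(κ * (Real.pi / 2) * |((k - j : ℤ) : ℝ)|))) * E2 t (d ^ 2) := by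
        refine mul_le_mul_of_nonneg_right ?_ g3
        exact mul_le_mul_of_nonneg_left g2 (Real.exp_pos _).le
      _ = _ := by ring
  have hs1 : Summable (fun k : ℤ =>
      (Real.exp (κ * (Om + 5 * Real.pi / 4)) * Real.exp (κ * (Real.pi / 2)) * E2 t (d ^ 2)) *
        Real.exp (-(κ * (Real.pi / 2) * |((k - j : ℤ) : ℝ)|))) := hsum2.mul_left _
  have hs0 : Summable (fun k : ℤ => E2 t (dd F p (gk k q) ^ 2)) :=
    Summable.of_nonneg_of_le (fun k => (E2_pos' ht _).le) hdom hs1
  calc WS F q t p = ∑' k : ℤ, E2 t (dd F p (gk k q) ^ 2) := rfl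
    _ ≤ ∑' k : ℤ, _ := hs0.tsum_le_tsum hdom hs1
    _ = (Real.exp (κ * (Om + 5 * Real.pi / 4)) * Real.exp (κ * (Real.pi / 2)) * E2 t (d ^ 2)) *
        S := by rw [tsum_mul_left, htsum2]
    _ = _ := by ring

end Pool.Agent.H81.HK
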