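import Pool.Agent.H96.HK.Basic

open MeasureTheory Set Filter Topology
open scoped ContDiff
open Pool.Agent.H96.HK

namespace Pool.Agent.H81.HK

/-- the barrier -/
noncomputable def Bar (ψ : ℝ → ℝ) (τ : ℝ) (p : X) : ℝ := τ⁻¹ * Real.exp (-(ψ p.1 / (4 * τ)))

theorem bar_pos {ψ : ℝ → ℝ} {τ : ℝ} (hτ : 0 < τ) (p : X) : 0 < Bar ψ τ p := by
  unfold Bar; positivity

theorem bar_contDiff {ψ : ℝ → ℝ} (hψ : ContDiff ℝ 2 ψ) (τ : ℝ) : ContDiff ℝ 2 (Bar ψ τ) := by
  unfold Bar
  exact contDiff_const.mul ((((hψ.comp contDiff_fst).div_const _).neg).exp)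

theorem bar_hasDerivAt {ψ : ℝ → ℝ} {τ : ℝ} (hτ : 0 < τ) (p : X) :
    HasDerivAt (fun τ => Bar ψ τ p) ((-1 / τ + ψ p.1 / (4 * τ ^ 2)) * Bar ψ τ p) τ := by
  unfold Bar
  have h1 : HasDerivAt (fun τ : ℝ => τ⁻¹) (-(τ ^ 2)⁻¹) τ := hasDerivAt_inv hτ.ne'
  have h2 : HasDerivAt (fun τ : ℝ => -(ψ p.1 / (4 * τ))) (ψ p.1 / (4 * τ ^ 2)) τ := by
    have h3 : HasDerivAt (fun τ : ℝ => -(ψ p.1 / 4) * τ⁻¹) (-(ψ p.1 / 4) * -(τ ^ 2)⁻¹) τ :=
      h1.const_mul _
    convert h3 using 1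
    · funext x
      rw [div_mul_eq_div_div, div_eq_mul_inv (ψ p.1 / 4), neg_mul]
    · field_simp
  refine (h1.mul h2.exp).congr_deriv ?_
  field_simp

theorem bar_ds {ψ : ℝ → ℝ} (hψ : ContDiff ℝ 2 ψ) {τ : ℝ} (p : X) :
    ds (Bar ψ τ) p = -(deriv ψ p.1 / (4 * τ)) * Bar ψ τ p := by
  unfold ds Bar
  have h1 : HasDerivAt ψ (deriv ψ p.1) p.1 :=
    ((hψ.differentiable (by norm_num)) p.1).hasDerivAt
  have h2 : HasDerivAt (fun a => τ⁻¹ * Real.exp (-(ψ a / (4 * τ))))
      (τ⁻¹ * (Real.exp (-(ψ p.1 / (4 * τ))) * -(deriv ψ p.1 / (4 * τ)))) p.1 :=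
    ((h1.div_const (4 * τ)).neg.exp).const_mul _
  simp only
  rw [h2.deriv]
  ring

theorem bar_LB {F ψ : ℝ → ℝ} (hψ : ContDiff ℝ 2 ψ) {τ : ℝ} (p : X) :
    LB F (Bar ψ τ) p = (-((deriv (deriv ψ) p.1 + deriv F p.1 / F p.1 * deriv ψ p.1) / (4 * τ)) +
      deriv ψ p.1 ^ 2 / (16 * τ ^ 2)) * Bar ψ τ p := by
  have e1 : ds (Bar ψ τ) = fun p => -(deriv ψ p.1 / (4 * τ)) * Bar ψ τ p :=
    funext fun p => bar_ds hψ p
  have e2 : dp (Bar ψ τ) = fun _ => 0 := by
    funext p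
    unfold dp Bar
    simp
  have e3 : dp (dp (Bar ψ τ)) p = 0 := by
    rw [e2]; unfold dp; simp
  have h1 : HasDerivAt ψ (deriv ψ p.1) p.1 :=
    ((hψ.differentiable (by norm_num)) p.1).hasDerivAt
  have h3 : HasDerivAt (deriv ψ) (deriv (deriv ψ) p.1) p.1 := by
    have h4 : ContDiff ℝ 1 (deriv ψ) := by
      have : ContDiff ℝ (1 + 1) ψ := by norm_num; exact hψ
      exact ((contDiff_succ_iff_deriv).1 this).2.2
    exact ((h4.differentiable (by norm_num)) p.1).hasDerivAt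
  have e4 : ds (ds (Bar ψ τ)) p =
      (-(deriv (deriv ψ) p.1 / (4 * τ)) + deriv ψ p.1 ^ 2 / (16 * τ ^ 2)) * Bar ψ τ p := by
    rw [e1]
    unfold ds Bar
    have h2 : HasDerivAt (fun a => τ⁻¹ * Real.exp (-(ψ a / (4 * τ))))
        (τ⁻¹ * (Real.exp (-(ψ p.1 / (4 * τ))) * -(deriv ψ p.1 / (4 * τ)))) p.1 :=
      ((h1.div_const (4 * τ)).neg.exp).const_mul _
    have h5 : HasDerivAt (fun a => -(deriv ψ a / (4 * τ))) (-(deriv (deriv ψ) p.1 / (4 * τ))) p.1 :=
      (h3.div_const _).neg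
    simp only
    have h6 := (h5.mul h2).deriv
    simp only [Pi.mul_def] at h6
    rw [h6]
    ring
  unfold LB
  rw [e3, e4, bar_ds hψ]
  ring

theorem u3 (h1 : T_U1) (h2 : T_U2) (h3 : T_PSI) (h4 : T_CMP) (h5 : T_DEC) (h6 : T_JET)
    (h7 : T_DQ) : T_U3 := by
  intro F H hF hH
  obtain ⟨ψ, C0, hψ, hev, hode, hsq, hlo, hup⟩ := h3 F hF
  obtain ⟨C, hC, hU2⟩ := h2 F hF 1 one_pos
  have hQ := h7 F hF
  set C2 : ℝ := C * Real.exp (27 / 4) * 2 * Real.exp (C0 / 8) with hC2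
  have hC20 : 0 < C2 := by positivity
  refine ⟨C2, hC20, fun p q hq t ht => ?_⟩
  -- time one
  have hone : ∀ p : X, H 1 p q ≤ C2 * Bar ψ 2 p := by
    intro p
    have g1 := (h1 F H hF hH 1 one_pos p q).trans (hU2 p q 1 one_pos (by
      have := abs_nonneg p.1
      have := abs_nonneg q.1
      linarith))
    refine g1.trans ?_
    have g2 : 3 / 4 * p.1 ^ 2 - 27 ≤ dq F p q ^ 2 := by
      have g3 := hQ.lo p q
      have g4 := sq_abs p.1
      rcases le_or_gt 3 |p.1| with hc | hc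
      · have g5 : (|p.1| - 3) ^ 2 ≤ dq F p q ^ 2 :=
          pow_le_pow_left₀ (by linarith) (by linarith) 2
        nlinarith [sq_nonneg (|p.1| / 2 - 6)]
      · have := sq_nonneg (dq F p q)
        nlinarith [abs_nonneg p.1]
    have g6 : E2 1 (dq F p q ^ 2) ≤ Real.exp (-(3 / 16 * p.1 ^ 2) + 27 / 4) := by
      unfold E2
      have e1 : (4 * Real.pi * 1)⁻¹ ≤ 1 := by
        apply inv_le_one_of_one_le₀
        have := Real.pi_gt_three
        linarith
      calc (4 * Real.pi * 1)⁻¹ * Real.exp (-(dq F p q ^ 2 / (4 * 1)))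
          ≤ 1 * Real.exp (-(dq F p q ^ 2 / (4 * 1))) :=
            mul_le_mul_of_nonneg_right e1 (Real.exp_pos _).le
        _ ≤ _ := by
            rw [one_mul]
            refine Real.exp_le_exp.2 ?_
            linarith
    have g7 : Real.exp (-(3 / 16 * p.1 ^ 2) - C0 / 8) ≤ 2 * Bar ψ 2 p := by
      unfold Bar
      rw [← mul_assoc, mul_inv_cancel₀ (two_ne_zero), one_mul]
      refine Real.exp_le_exp.2 ?_
      have := hup p.1
      linarith
    calc C * E2 1 (dq F p q ^ 2) ≤ C * Real.exp (-(3 / 16 * p.1 ^ 2) + 27 / 4) :=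
          mul_le_mul_of_nonneg_left g6 hC.le
      _ = C * Real.exp (27 / 4) * Real.exp (C0 / 8) *
          Real.exp (-(3 / 16 * p.1 ^ 2) - C0 / 8) := by
          rw [mul_assoc, mul_assoc, ← Real.exp_add, ← Real.exp_add]
          congr 2
          ring
      _ ≤ C * Real.exp (27 / 4) * Real.exp (C0 / 8) * (2 * Bar ψ 2 p) :=
          mul_le_mul_of_nonneg_left g7 (by positivity)
      _ = C2 * Bar ψ 2 p := by rw [hC2]; ring
  -- comparison
  have hcmp : H t p q ≤ C2 * Bar ψ (t + 1) p := by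
    rcases eq_or_lt_of_le ht with rfl | ht1
    · have := hone p
      norm_num
      exact this
    · have hbc : ContinuousOn (fun z : ℝ × X => Bar ψ (z.1 + 1) z.2) (Icc 1 t ×ˢ univ) := by
        unfold Bar
        have hψc := hψ.continuous
        have hne : ∀ z ∈ (Icc 1 t ×ˢ univ : Set (ℝ × X)), z.1 + 1 ≠ 0 := fun z hz => by
          have : (1 : ℝ) ≤ z.1 := hz.1.1
          linarith
        refine ContinuousOn.mul (ContinuousOn.inv₀ (by fun_prop) hne) ?_
        refine ContinuousOn.rexp (ContinuousOn.neg (ContinuousOn.div ?_ (by fun_prop) ?_))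
        · exact (hψc.comp (continuous_fst.comp continuous_snd)).continuousOn
        · exact fun z hz => mul_ne_zero (by norm_num) (hne z hz)
      have hHc : ContinuousOn (fun z : ℝ × X => H z.1 z.2 q) (Icc 1 t ×ˢ univ) := by
        have g1 : ContinuousOn (fun z : ℝ × X => ((z.1, z.2, q) : ℝ × X × X))
            (Icc 1 t ×ˢ univ) := by fun_prop
        exact hH.cont.comp g1 (fun z hz => ⟨lt_of_lt_of_le one_pos hz.1.1, mem_univ _⟩)
      have key := h4 F 1 t (fun τ p => H τ p q + C2 * -Bar ψ (τ + 1) p) hF.pos ht1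
        (hHc.add (hbc.neg.const_smul C2)) ?_ ?_ ?_ ?_ t ⟨ht, le_rfl⟩ p
      · linarith
      · intro τ hτ p
        have e1 := hH.inv τ (lt_of_lt_of_le one_pos hτ.1) q p
        have e2 : Bar ψ (τ + 1) (g0 p) = Bar ψ (τ + 1) p := by
          unfold Bar g0
          simp only [hev]
        simp only at e1 ⊢
        rw [e1, e2]
      · intro ε hε
        obtain ⟨R, hR⟩ := h5 F H hF hH q t (by linarith) ε hε
        refine ⟨R, fun τ hτ p hp => ?_⟩
        have g1 := hR τ ⟨lt_of_lt_of_le one_pos hτ.1, hτ.2⟩ p hp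
        have g2 := bar_pos (ψ := ψ) (show 0 < τ + 1 by linarith [hτ.1]) p
        have g3 : 0 ≤ C2 * Bar ψ (τ + 1) p := by positivity
        linarith
      · intro p
        have := hone p
        norm_num
        exact this
      · intro τ hτ p _
        refine ⟨0, ?_⟩
        have hτ0 : 0 < τ := lt_trans one_pos hτ.1
        rw [gk_zero]
        refine h6.add F _ _ τ p ?_ (h6.smul F _ C2 τ p hC20.le ?_)
        · exact h6.cls F (fun t p => H t p q) τ p _ ((hH.cl q).c2 τ hτ0).contDiffAt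
            ((hH.cl q).heat τ hτ0 p) le_rfl
        · have hτ1 : 0 < τ + 1 := by linarith
          refine h6.cls' F (fun t p => Bar ψ (t + 1) p) τ p
            ((-1 / (τ + 1) + ψ p.1 / (4 * (τ + 1) ^ 2)) * Bar ψ (τ + 1) p)
            (bar_contDiff hψ _).contDiffAt ?_ ?_
          · exact (bar_hasDerivAt hτ1 p).comp_add_const τ 1
          · rw [show (fun p => Bar ψ (τ + 1) p) = Bar ψ (τ + 1) from rfl, bar_LB hψ, hode]
            refine mul_le_mul_of_nonneg_right ?_ (bar_pos hτ1 p).le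
            have g1 := hsq p.1
            have e1 : -(4 / (4 * (τ + 1))) = -1 / (τ + 1) := by field_simp
            rw [e1]
            have e2 : deriv ψ p.1 ^ 2 / (16 * (τ + 1) ^ 2) ≤ ψ p.1 / (4 * (τ + 1) ^ 2) := by
              rw [div_le_div_iff₀ (by positivity) (by positivity)]
              nlinarith [sq_nonneg (τ + 1)]
            linarith
  refine hcmp.trans ?_
  unfold Bar
  have hlo1 := hlo p.1
  have g1 : Real.exp (-(ψ p.1 / (4 * (t + 1)))) ≤ Real.exp (-(p.1 ^ 2 / (4 * (t + 1)))) := by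
    refine Real.exp_le_exp.2 (neg_le_neg ?_)
    exact div_le_div_of_nonneg_right hlo1 (by linarith)
  have g2 : (t + 1)⁻¹ ≤ t⁻¹ := inv_anti₀ (by linarith) (by linarith)
  calc C2 * ((t + 1)⁻¹ * Real.exp (-(ψ p.1 / (4 * (t + 1)))))
      ≤ C2 * (t⁻¹ * Real.exp (-(p.1 ^ 2 / (4 * (t + 1))))) :=
        mul_le_mul_of_nonneg_left (mul_le_mul g2 g1 (Real.exp_pos _).le
          (inv_nonneg.2 (by linarith))) hC20.le
    _ = _ := by rw [div_eq_mul_inv]; ring

theorem u4 (h1 : T_U1) (h2 : T_U2) (h3 : T_U3) (h4 : T_DQ) : T_U4 := by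
  intro F H hF hH
  obtain ⟨C, hC, hU2⟩ := h2 F hF 1 one_pos
  obtain ⟨C', hC', hU3⟩ := h3 F H hF hH
  have hQ := h4 F hF
  have hpi := Real.pi_pos
  refine ⟨C + C' * (4 * Real.pi) * Real.exp 7, by positivity, fun p q hq t ht => ?_⟩
  have hE := E2_pos' ht (dq F p q ^ 2)
  rcases le_or_gt t (1 + |p.1|) with hc | hc
  · have g1 := (h1 F H hF hH t ht p q).trans (hU2 p q t ht (by
      have := abs_nonneg q.1
      linarith))
    refine g1.trans (mul_le_mul_of_nonneg_right ?_ hE.le)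
    have : 0 ≤ C' * (4 * Real.pi) * Real.exp 7 := by positivity
    linarith
  · have hx0 := abs_nonneg p.1
    have ht1 : 1 ≤ t := by linarith
    have g1 := hU3 p q hq t ht1
    have g2 : dq F p q ≤ |p.1| + 4 := by
      have := hQ.up p q
      linarith
    have g3 : E2 t ((|p.1| + 4) ^ 2) ≤ E2 t (dq F p q ^ 2) :=
      E2_anti ht (pow_le_pow_left₀ (hQ.nn p q) g2 2)
    have g4 : C' / t * Real.exp (-(p.1 ^ 2 / (4 * (t + 1)))) ≤
        C' * (4 * Real.pi) * Real.exp 7 * E2 t ((|p.1| + 4) ^ 2) := by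
      unfold E2
      have e1 : C' * (4 * Real.pi) * Real.exp 7 *
          ((4 * Real.pi * t)⁻¹ * Real.exp (-((|p.1| + 4) ^ 2 / (4 * t)))) =
          C' / t * Real.exp (7 - (|p.1| + 4) ^ 2 / (4 * t)) := by
        rw [sub_eq_add_neg, Real.exp_add]
        field_simp
      rw [e1]
      refine mul_le_mul_of_nonneg_left (Real.exp_le_exp.2 ?_) (by positivity)
      have e2 : (|p.1| + 4) ^ 2 / (4 * t) ≤ 7 + p.1 ^ 2 / (4 * (t + 1)) := by
        rw [← sq_abs p.1]
        generalize |p.1| = x at *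
        have e3 : 7 + x ^ 2 / (4 * (t + 1)) = (28 * (t + 1) + x ^ 2) / (4 * (t + 1)) := by
          field_simp
          ring
        rw [e3, div_le_div_iff₀ (by positivity) (by positivity)]
        have h8 : x ≤ t := by linarith
        nlinarith [mul_nonneg hx0 ht.le, mul_self_nonneg (t - x), mul_nonneg (sub_nonneg.2 h8) hx0,
          mul_nonneg (sub_nonneg.2 h8) ht.le]
      linarith
    refine g1.trans (g4.trans ((mul_le_mul_of_nonneg_left g3 (by positivity)).trans ?_))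
    refine mul_le_mul_of_nonneg_right ?_ hE.le
    linarith

end Pool.Agent.H81.HK
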